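import Pool.Agent.Q206.Intro.Ops

set_option autoImplicit false

/-!
# An introreducible set which is not a finite union of uniformly introreducible sets
(MP_4a6649_lc, Q1)

The definitions are in `Pool/Agent/Q206/Intro/Defs.lean`: `TRed` is Turing reducibility of sets
(Mathlib's `TuringReducible` for characteristic functions), a Turing operator is a c.e. set `W` of
axioms `(σ, n, b)`, and `Computes W C A` says that the operator `W` with oracle `C` computes `A`.
The first part of the theorem checks the operators against Mathlib's Turing reducibility.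

The set is `A_Z = {(j, (Z with Z(j) erased) restricted to m) : j < m}` for a sufficiently Cohen
generic `Z`.
-/

namespace Pool.Agent.Results.MP_4a6649_lc.NoFiniteUnion

open Q206.Intro

theorem result :
    (∀ A B : Set ℕ, TRed A B ↔
      ∃ W : Set (List Bool × ℕ × Bool), REPred (fun x => x ∈ W) ∧ Computes W B A) ∧
    ∃ A : Set ℕ, Introreducible A ∧
      ¬ ∃ (n : ℕ) (B : Fin (n + 1) → Set ℕ),
        (∀ i, UniformlyIntroreducible (B i)) ∧ A = ⋃ i, B i := by
  refine ⟨fun A B => tRed_iff_computes, ?_⟩
  obtain ⟨A, h1, -, h2, -⟩ := exists_set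
  refine ⟨A, h1, fun ⟨n, B, hB, h3⟩ => h2 (n + 1) B h3 fun i => uit_of_uniform h1 (hB i) ?_⟩
  rw [h3]
  exact Set.subset_iUnion _ _

end Pool.Agent.Results.MP_4a6649_lc.NoFiniteUnion
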